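import Pool.Agent.H43.CM.Main

/-!
# MP_7fe4b4_ag : the Cohen-Macaulay type at the identity of one-step extensions of Gorenstein
Schubert varieties

Positions and values are numbered from `0`.  The big cell of `G/B` around the point `e_id` is
`U⁻ ≅ ℂ^(n(n-1)/2)`, the lower unitriangular matrices `lowerMat z`; the point `e_id` is `z = 0`.
The orbit `B e_v` meets it in `orbitChart v = {z | lowerMat z ∈ B v B}`.  Since the big cell is
open, the Schubert variety `X_v` (the closure of `B e_v`) meets it in the closure of `orbitChart v`;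
so `CoordRing v` is the coordinate ring of `X_v` (reduced) in the big cell, and its localization at
the ideal of the origin is the local ring of `X_v` at `e_id`.
-/

open MvPolynomial CategoryTheory Abelian

noncomputable section

namespace Pool.Agent.H43.Old.OneStepType

variable {n : ℕ}

/-- strictly lower triangular positions `(row, column)` -/
abbrev LowPos (n : ℕ) : Type := {e : Fin n × Fin n // e.2 < e.1}

/-- the lower unitriangular matrix with entries `z` -/
def lowerMat (z : LowPos n → ℂ) : Matrix (Fin n) (Fin n) ℂ :=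
  fun i j => if h : j < i then z ⟨(i, j), h⟩ else if i = j then 1 else 0

/-- the permutation matrix of `v`: its column `j` is the basis vector `e_{v(j)}` -/
def permMatrix (v : Equiv.Perm (Fin n)) : Matrix (Fin n) (Fin n) ℂ :=
  fun i j => if i = v j then 1 else 0

/-- `b` is an element of `B`: an invertible upper triangular matrix -/
def InB (b : Matrix (Fin n) (Fin n) ℂ) : Prop :=
  (∀ i j, j < i → b i j = 0) ∧ ∀ i, b i i ≠ 0

/-- the double coset `B v B` -/
def DoubleCoset (v : Equiv.Perm (Fin n)) : Set (Matrix (Fin n) (Fin n) ℂ) :=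
  {M | ∃ b b' : Matrix (Fin n) (Fin n) ℂ, InB b ∧ InB b' ∧ M = b * permMatrix v * b'}

/-- the part of the orbit `B e_v` in the big cell around `e_id` -/
def orbitChart (v : Equiv.Perm (Fin n)) : Set (LowPos n → ℂ) :=
  {z | lowerMat z ∈ DoubleCoset v}

/-- the coordinate ring of the Zariski closure of a set of points -/
abbrev RingOf (S : Set (LowPos n → ℂ)) : Type :=
  MvPolynomial (LowPos n) ℂ ⧸ vanishingIdeal ℂ S

/-- the ideal of `RingOf S` generated by the coordinates: the ideal of the origin -/
def originIdeal (S : Set (LowPos n → ℂ)) : Ideal (RingOf S) :=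
  Ideal.span (Set.range fun e => Ideal.Quotient.mk (vanishingIdeal ℂ S) (X e))

/-- the coordinate ring of the Schubert variety `X_v` in the big cell around `e_id` -/
abbrev CoordRing (v : Equiv.Perm (Fin n)) : Type := RingOf (orbitChart v)

/-- the number of inversions of `v`, which is the dimension of `X_v` -/
def inversions (v : Equiv.Perm (Fin n)) : ℕ :=
  (Finset.univ.filter fun p : Fin n × Fin n => p.1 < p.2 ∧ v p.2 < v p.1).card

/-- the local ring `O` has dimension `d`, is Cohen-Macaulay and has Cohen-Macaulay type `t`: with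
`k` the residue field, `Ext^i(k, O) = 0` for `i < d` and `Ext^d(k, O)` is isomorphic to `k^t` -/
def HasCMType (O : Type) [CommRing O] [IsLocalRing O] (d t : ℕ) : Prop :=
  ringKrullDim O = d ∧
  (∀ i < d, Subsingleton (Ext (ModuleCat.of O (IsLocalRing.ResidueField O)) (ModuleCat.of O O) i)) ∧
  Nonempty (Ext (ModuleCat.of O (IsLocalRing.ResidueField O)) (ModuleCat.of O O) d ≃ₗ[O]
    (Fin t → IsLocalRing.ResidueField O))

/-- `t(v) = t`: the local ring of `X_v` at `e_id` (the localization of the coordinate ring of `X_v`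
in the big cell at the ideal of the origin) has dimension `ℓ(v)`, is Cohen-Macaulay and has
Cohen-Macaulay type `t` -/
def TypeAtIdentity (v : Equiv.Perm (Fin n)) (t : ℕ) : Prop :=
  ∃ _ : (originIdeal (orbitChart v)).IsPrime,
    HasCMType (Localization.AtPrime (originIdeal (orbitChart v))) (inversions v) t

/-- `h` is a rank function on the positions of `u`: it increases by one along every Bruhat cover
`u (a b) ⋖ u`, that is, for all positions `a < b` with `u(a) > u(b)` and no position `c` between
`a` and `b` with `u(a) > u(c) > u(b)` (such an `h` exists if and only if `X_u` is Gorenstein) -/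
def IsRankFunction (u : Equiv.Perm (Fin n)) (h : Fin n → ℤ) : Prop :=
  ∀ a b : Fin n, a < b → u b < u a → (∀ c, a < c → c < b → ¬ (u b < u c ∧ u c < u a)) →
    h b = h a + 1

theorem lowerMat_eq (z : LowPos n → ℂ) : lowerMat z = CMT.lowMat z := rfl

theorem doubleCoset_eq (v : Equiv.Perm (Fin n)) : DoubleCoset v = CMT.Cell v := rfl

theorem orbitChart_eq (v : Equiv.Perm (Fin n)) : orbitChart v = CMT.SS 1 v := by
  ext z
  have h1 : CMT.permMat ℂ (1 : Equiv.Perm (Fin n)) = 1 := by
    ext i j
    simp [CMT.permMat, Matrix.one_apply]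
  show lowerMat z ∈ DoubleCoset v ↔ CMT.permMat ℂ 1 * CMT.lowMat z ∈ CMT.Cell v
  rw [h1, one_mul, lowerMat_eq, doubleCoset_eq]

theorem of_hasType_aux (v : Equiv.Perm (Fin n)) (t : ℕ)
    (h : CMT.HasType (CMT.SchubertLocalRing v) (CMT.len v) t) (S : Set (LowPos n → ℂ))
    (hS : CMT.SS 1 v = S) : ∃ _ : (originIdeal S).IsPrime,
      HasCMType (Localization.AtPrime (originIdeal S)) (inversions v) t := by
  subst hS
  exact ⟨CMT.orig_isPrime v, h⟩

theorem of_hasType (v : Equiv.Perm (Fin n)) (t : ℕ)
    (h : CMT.HasType (CMT.SchubertLocalRing v) (CMT.len v) t) : TypeAtIdentity v t :=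
  of_hasType_aux v t h _ (orbitChart_eq v).symm

/-- Let `h` be a rank function of `u`, let `q, q' = q + 1` be positions with `u(q) < u(q')` and
`s_q = (q q') ≤ u` (some position `j ≤ q` has `u(j) > q`), and let `t = h(q) - h(q') ≥ 1`.
Then `t(v) = t` for `v = u s_q` and for `v = (u s_q)⁻¹ = s_q u⁻¹`. -/
theorem result (n : ℕ) (u : Equiv.Perm (Fin n)) (h : Fin n → ℤ) (hu : IsRankFunction u h)
    (q q' : Fin n) (hq : q'.val = q.val + 1) (hasc : u q < u q') (hs : ∃ j, j ≤ q ∧ q < u j)
    (t : ℕ) (ht : 1 ≤ t) (hh : h q - h q' = t) (v : Equiv.Perm (Fin n))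
    (hv : v = u * Equiv.swap q q' ∨ v⁻¹ = u * Equiv.swap q q') :
    TypeAtIdentity v t := by
  obtain ⟨q, hq1⟩ := q
  obtain ⟨q', hq2⟩ := q'
  simp only at hq
  subst hq
  have h1 := CMT.hasType_right u h hu q hq2 hasc hs t ht hh
  have h2 := CMT.hasType_left u h hu q hq2 hasc hs t ht hh
  rcases hv with rfl | hv
  · exact of_hasType _ t h1
  · have hv' : v = (u * CMT.sr q hq2)⁻¹ := by
      rw [← inv_inv v, hv]
      rfl
    rw [hv']
    exact of_hasType _ t h2

end Pool.Agent.H43.Old.OneStepType
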